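import Pool.Agent.N77.CS.Stm

/-!
# Project CS (helper77), part ASM: the congruence property for products (by helper565)
-/

set_option autoImplicit false

namespace Pool.Agent.N77.CS.ASM

open Pool.Agent.R387.TC Pool.Agent.N77.CS

/-! ### homomorphisms on the free product -/

section hom

variable {k l : ℕ} {H : Type} [Group H]

/-- the homomorphism with given restrictions -/
def hAB (f : F k →* H) (g : F l →* H) : F (k + l) →* H :=
  FreeGroup.lift (fun i => Fin.addCases (motive := fun _ => H) (fun i => f (FreeGroup.of i))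
    (fun j => g (FreeGroup.of j)) i)

theorem hAB_compA (f : F k →* H) (g : F l →* H) : (hAB f g).comp (iA k l) = f := by
  apply FreeGroup.ext_hom
  intro i
  simp [hAB, iA]

theorem hAB_compB (f : F k →* H) (g : F l →* H) : (hAB f g).comp (iB k l) = g := by
  apply FreeGroup.ext_hom
  intro i
  simp [hAB, iB]

theorem hAB_A (f : F k →* H) (g : F l →* H) (x : F k) : hAB f g (iA k l x) = f x :=
  DFunLike.congr_fun (hAB_compA f g) x

theorem hAB_B (f : F k →* H) (g : F l →* H) (y : F l) : hAB f g (iB k l y) = g y :=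
  DFunLike.congr_fun (hAB_compB f g) y

theorem ext_AB {f g : F (k + l) →* H} (h1 : ∀ x, f (iA k l x) = g (iA k l x))
    (h2 : ∀ y, f (iB k l y) = g (iB k l y)) : f = g := by
  apply FreeGroup.ext_hom
  intro i
  induction i using Fin.addCases with
  | left i =>
    have := h1 (FreeGroup.of i)
    simpa [iA] using this
  | right i =>
    have := h2 (FreeGroup.of i)
    simpa [iB] using this

end hom

theorem mulAut_ext_AB {k l : ℕ} {φ ψ : MulAut (F (k + l))}
    (h1 : ∀ x, φ (iA k l x) = ψ (iA k l x)) (h2 : ∀ y, φ (iB k l y) = ψ (iB k l y)) : φ = ψ := by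
  have : φ.toMonoidHom = ψ.toMonoidHom := ext_AB h1 h2
  ext x
  exact DFunLike.congr_fun this x

/-- the extension of automorphisms of the first factor -/
def PA (k l : ℕ) : MulAut (F k) →* MulAut (F (k + l)) :=
  autOf (fun σ => hAB ((iA k l).comp σ.toMonoidHom) (iB k l))
    (by
      apply ext_AB
      · intro x; rw [hAB_A]; rfl
      · intro y; rw [hAB_B]; rfl)
    (by
      intro σ τ
      apply ext_AB
      · intro x
        rw [hAB_A, MonoidHom.comp_apply (hAB _ _), hAB_A]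
        change iA k l (σ (τ x)) = hAB _ _ (iA k l (τ x))
        rw [hAB_A]
        rfl
      · intro y
        rw [hAB_B, MonoidHom.comp_apply (hAB _ _), hAB_B, hAB_B])

/-- the extension of automorphisms of the second factor -/
def PB (k l : ℕ) : MulAut (F l) →* MulAut (F (k + l)) :=
  autOf (fun σ => hAB (iA k l) ((iB k l).comp σ.toMonoidHom))
    (by
      apply ext_AB
      · intro x; rw [hAB_A]; rfl
      · intro y; rw [hAB_B]; rfl)
    (by
      intro σ τ
      apply ext_AB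
      · intro x
        rw [hAB_A, MonoidHom.comp_apply (hAB _ _), hAB_A, hAB_A]
      · intro y
        rw [hAB_B, MonoidHom.comp_apply (hAB _ _), hAB_B]
        change iB k l (σ (τ y)) = hAB _ _ (iB k l (τ y))
        rw [hAB_B]
        rfl)

theorem PA_A {k l : ℕ} (σ : MulAut (F k)) (x : F k) : PA k l σ (iA k l x) = iA k l (σ x) := by
  rw [PA, autOf_apply, hAB_A]; rfl

theorem PA_B {k l : ℕ} (σ : MulAut (F k)) (y : F l) : PA k l σ (iB k l y) = iB k l y := by
  rw [PA, autOf_apply, hAB_B]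

theorem PB_A {k l : ℕ} (τ : MulAut (F l)) (x : F k) : PB k l τ (iA k l x) = iA k l x := by
  rw [PB, autOf_apply, hAB_A]

theorem PB_B {k l : ℕ} (τ : MulAut (F l)) (y : F l) : PB k l τ (iB k l y) = iB k l (τ y) := by
  rw [PB, autOf_apply, hAB_B]; rfl

/-- the decomposition -/
theorem decomp {k l : ℕ} {φ : MulAut (F (k + l))} {g : F (k + l)} {σ : MulAut (F k)}
    {τ : MulAut (F l)} (h1 : ∀ x, φ (iA k l x) = g * iA k l (σ x) * g⁻¹)
    (h2 : ∀ y, φ (iB k l y) = g * iB k l (τ y) * g⁻¹) :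
    φ = MulAut.conj g * (PA k l σ * PB k l τ) := by
  apply mulAut_ext_AB
  · intro x
    rw [h1, MulAut.mul_apply, MulAut.mul_apply, PB_A, PA_A, MulAut.conj_apply]
  · intro y
    rw [h2, MulAut.mul_apply, MulAut.mul_apply, PB_B, PA_B, MulAut.conj_apply]

/-- intersections of characteristic subgroups -/
theorem char_inf {n : ℕ} {K L : Subgroup (F n)} (hK : K.Characteristic) (hL : L.Characteristic) :
    (K ⊓ L).Characteristic := by
  rw [Subgroup.characteristic_iff_le_comap] at hK hL ⊢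
  intro φ x hx
  exact ⟨hK φ hx.1, hL φ hx.2⟩

/-- normality in the form which we need -/
theorem tw {n : ℕ} {K : Subgroup (F n)} [K.Normal] {a b g h : F n}
    (hx : g * a * g⁻¹ * (h * b * h⁻¹)⁻¹ ∈ K) :
    a * (g⁻¹ * h * b * (g⁻¹ * h)⁻¹)⁻¹ ∈ K := by
  have h1 := (inferInstance : K.Normal).conj_mem _ hx g⁻¹
  have e : a * (g⁻¹ * h * b * (g⁻¹ * h)⁻¹)⁻¹ =
      g⁻¹ * (g * a * g⁻¹ * (h * b * h⁻¹)⁻¹) * g⁻¹⁻¹ := by group
  rw [e]
  exact h1

theorem main (hW : S_WR) : S_ASM := by
  intro k l hk hl S T hS hT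
  obtain ⟨k', rfl⟩ : ∃ k', k = k' + 1 := ⟨k - 1, by omega⟩
  obtain ⟨l', rfl⟩ : ∃ l', l = l' + 1 := ⟨l - 1, by omega⟩
  refine ⟨?_, ?_⟩
  · intro V hV
    set N := V.normalCore with hN
    have hNV : N ≤ V := Subgroup.normalCore_le V
    have hNfi : N.FiniteIndex := inferInstance
    have hMfi : (N.comap MulAut.conj).FiniteIndex := fi_comap _ _
    obtain ⟨Kc, hcc, hfc, hKc⟩ : ∃ K : Subgroup (F (k' + 1 + (l' + 1))), K.Characteristic ∧
        K.FiniteIndex ∧ ∀ g, (∀ x, g * x * g⁻¹ * x⁻¹ ∈ K) → g ∈ N.comap MulAut.conj :=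
      centre (n := k' + 1 + l') ⟨0, by omega⟩ (N.comap MulAut.conj)
    have hnc : Kc.Normal := inferInstance
    have hQ : Finite (F (k' + 1 + (l' + 1)) ⧸ Kc) := inferInstance
    obtain ⟨KA1, hcA, hfA, hKA1⟩ := hS (N.comap (PA (k' + 1) (l' + 1))) (fi_comap _ _)
    obtain ⟨KB1, hcB, hfB, hKB1⟩ := hT (N.comap (PB (k' + 1) (l' + 1))) (fi_comap _ _)
    have hfcA := core_fin (k' + 1) (F (k' + 1 + (l' + 1)) ⧸ Kc)
    have hfcB := core_fin (l' + 1) (F (k' + 1 + (l' + 1)) ⧸ Kc)
    obtain ⟨K1, hc1, hf1, hK1⟩ := hW (k' + 1) (l' + 1) hk hl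
      (KA1 ⊓ core (k' + 1) (F (k' + 1 + (l' + 1)) ⧸ Kc)) (char_inf hcA (core_char _ _))
      inferInstance
      (KB1 ⊓ core (l' + 1) (F (k' + 1 + (l' + 1)) ⧸ Kc)) (char_inf hcB (core_char _ _))
      inferInstance
    have hn1 : K1.Normal := inferInstance
    refine ⟨K1 ⊓ Kc, char_inf hc1 hcc, inferInstance, ?_⟩
    rintro φ ⟨g, σ, hσ, τ, hτ, h1, h2⟩ hφ
    obtain ⟨tA, tB⟩ := hK1 σ τ g⁻¹ (fun x => by
      have h3 := (hφ (iA (k' + 1) (l' + 1) x)).1
      rw [h1] at h3
      have h4 : g * iA _ _ (σ x) * g⁻¹ * (1 * iA _ _ x * 1⁻¹)⁻¹ ∈ K1 := by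
        simpa using h3
      have h5 := tw h4
      simpa using h5) (fun y => by
      have h3 := (hφ (iB (k' + 1) (l' + 1) y)).1
      rw [h2] at h3
      have h4 : g * iB _ _ (τ y) * g⁻¹ * (1 * iB _ _ y * 1⁻¹)⁻¹ ∈ K1 := by
        simpa using h3
      have h5 := tw h4
      simpa using h5)
    have e1 : PA _ _ σ ∈ N := hKA1 σ hσ fun x => (tA x).1
    have e2 : PB _ _ τ ∈ N := hKB1 τ hτ fun x => (tB x).1
    have e3 : PA (k' + 1) (l' + 1) σ ∈ trivSub Kc := by
      have h3 : (QuotientGroup.mk' Kc).comp (PA (k' + 1) (l' + 1) σ).toMonoidHom =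
          QuotientGroup.mk' Kc := by
        apply ext_AB
        · intro x
          change QuotientGroup.mk' Kc (PA _ _ σ (iA _ _ x)) = QuotientGroup.mk' Kc (iA _ _ x)
          rw [PA_A]
          have h4 := mem_core.1 (tA x).2 ((QuotientGroup.mk' Kc).comp (iA (k' + 1) (l' + 1)))
          rw [map_mul, map_inv, mul_inv_eq_one] at h4
          exact h4
        · intro y
          change QuotientGroup.mk' Kc (PA _ _ σ (iB _ _ y)) = QuotientGroup.mk' Kc (iB _ _ y)
          rw [PA_B]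
      intro x
      apply (QuotientGroup.eq_one_iff _).1
      change QuotientGroup.mk' Kc (_ * _) = 1
      rw [map_mul, map_inv, mul_inv_eq_one]
      exact DFunLike.congr_fun h3 x
    have e4 : PB (k' + 1) (l' + 1) τ ∈ trivSub Kc := by
      have h3 : (QuotientGroup.mk' Kc).comp (PB (k' + 1) (l' + 1) τ).toMonoidHom =
          QuotientGroup.mk' Kc := by
        apply ext_AB
        · intro x
          change QuotientGroup.mk' Kc (PB _ _ τ (iA _ _ x)) = QuotientGroup.mk' Kc (iA _ _ x)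
          rw [PB_A]
        · intro y
          change QuotientGroup.mk' Kc (PB _ _ τ (iB _ _ y)) = QuotientGroup.mk' Kc (iB _ _ y)
          rw [PB_B]
          have h4 := mem_core.1 (tB y).2 ((QuotientGroup.mk' Kc).comp (iB (k' + 1) (l' + 1)))
          rw [map_mul, map_inv, mul_inv_eq_one] at h4
          exact h4
      intro x
      apply (QuotientGroup.eq_one_iff _).1
      change QuotientGroup.mk' Kc (_ * _) = 1
      rw [map_mul, map_inv, mul_inv_eq_one]
      exact DFunLike.congr_fun h3 x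
    have hdec := decomp h1 h2
    have e5 : φ ∈ trivSub Kc := fun x => (hφ x).2
    have e6 : MulAut.conj g ∈ trivSub Kc := by
      have h3 := (trivSub Kc).mul_mem e5 ((trivSub Kc).inv_mem ((trivSub Kc).mul_mem e3 e4))
      rw [hdec, mul_inv_cancel_right] at h3
      exact h3
    have e7 : g ∈ N.comap MulAut.conj := hKc g fun x => by
      have h3 := e6 x
      rwa [MulAut.conj_apply] at h3
    rw [hdec]
    exact hNV (N.mul_mem e7 (N.mul_mem e1 e2))
  · intro V hVn hV hinn
    obtain ⟨KA1, hcA, hfA, hKA1⟩ := hS (V.comap (PA (k' + 1) (l' + 1))) (fi_comap _ _)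
    obtain ⟨KB1, hcB, hfB, hKB1⟩ := hT (V.comap (PB (k' + 1) (l' + 1))) (fi_comap _ _)
    obtain ⟨K1, hc1, hf1, hK1⟩ := hW (k' + 1) (l' + 1) hk hl KA1 hcA hfA KB1 hcB hfB
    have hn1 : K1.Normal := inferInstance
    refine ⟨K1, hc1, hf1, ?_⟩
    rintro φ ⟨g, σ, hσ, τ, hτ, h1, h2⟩ ⟨h, hφ⟩
    obtain ⟨tA, tB⟩ := hK1 σ τ (g⁻¹ * h) (fun x => by
      have h3 := hφ (iA (k' + 1) (l' + 1) x)
      rw [h1] at h3
      exact tw h3) (fun y => by
      have h3 := hφ (iB (k' + 1) (l' + 1) y)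
      rw [h2] at h3
      exact tw h3)
    have e1 : PA _ _ σ ∈ V := hKA1 σ hσ tA
    have e2 : PB _ _ τ ∈ V := hKB1 τ hτ tB
    rw [decomp h1 h2]
    exact V.mul_mem (hinn g) (V.mul_mem e1 e2)

end Pool.Agent.N77.CS.ASM
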