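import Pool.Agent.N77.CS.Stm

/-!
# Congruence subgroups on stabilizers of free splittings: assembly
-/

set_option autoImplicit false

namespace Pool.Agent.N77.CS

open Pool.Agent.R387.TC

/-- The sets of automorphisms of free groups `F n`, `n ≥ 1`, obtained from the sets of all
automorphisms of the free groups `F m` with the congruence subgroup property by the operations
`step` and `Prd`. -/
inductive Fam : (n : ℕ) → Set (MulAut (F n)) → Prop
  | base (m : ℕ) : 1 ≤ m → (2 ≤ m → OutCong m Set.univ) → Fam m Set.univ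
  | step {n : ℕ} {S : Set (MulAut (F n))} : Fam n S → Fam (n + 1) (Pool.Agent.R387.TC.step S)
  | prod {k l : ℕ} {S : Set (MulAut (F k))} {T : Set (MulAut (F l))} : Fam k S → Fam l T →
      Fam (k + l) (Prd S T)

theorem Fam.pos {n : ℕ} {S : Set (MulAut (F n))} (h : Fam n S) : 1 ≤ n := by
  induction h with
  | base m hm _ => exact hm
  | step _ ih => omega
  | prod _ _ ih1 ih2 => omega

theorem cong_mono {n : ℕ} {S T : Set (MulAut (F n))} (h : S ⊆ T) (hT : Cong n T) : Cong n S := by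
  intro V hV
  obtain ⟨K, h1, h2, h3⟩ := hT V hV
  exact ⟨K, h1, h2, fun ψ hψ => h3 ψ (h hψ)⟩

theorem outCong_mono {n : ℕ} {S T : Set (MulAut (F n))} (h : S ⊆ T) (hT : OutCong n T) :
    OutCong n S := by
  intro V hV hf hi
  obtain ⟨K, h1, h2, h3⟩ := hT V hV hf hi
  exact ⟨K, h1, h2, fun ψ hψ => h3 ψ (h hψ)⟩

theorem cong_univ (hO : S_ONE) {m : ℕ} (hm : 1 ≤ m) (h : 2 ≤ m → OutCong m Set.univ) :
    Cong m Set.univ := by
  rcases Nat.eq_or_lt_of_le hm with h1 | h1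
  · subst h1
    exact hO
  · obtain ⟨n, rfl⟩ : ∃ n, m = n + 1 := ⟨m - 1, by omega⟩
    exact cong_of_out (⟨0, by omega⟩ : Fin n) (h h1)

theorem stab_prd {k l : ℕ} (S : Set (MulAut (F k))) (T : Set (MulAut (F l))) :
    Stab (Prd S T) (⊤ : Subgroup (F (k + l))) := by
  rintro h - φ ⟨g, σ, hσ, τ, hτ, h1, h2⟩
  refine ⟨h * g, σ, hσ, τ, hτ, fun x => ?_, fun y => ?_⟩
  · rw [MulAut.mul_apply, h1, MulAut.conj_apply]
    group
  · rw [MulAut.mul_apply, h2, MulAut.conj_apply]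
    group

theorem fam (hA : S_ASM) (hO : S_ONE) {n : ℕ} {S : Set (MulAut (F n))} (h : Fam n S) :
    Cong n S ∧ ∃ H, Norm n S H ∧ Stab S H := by
  induction h with
  | base m hm h =>
    exact ⟨cong_univ hO hm h, ⊤, norm_top _ _, fun _ _ _ _ => trivial⟩
  | @step n S hS ih =>
    obtain ⟨h1, H, h2, h3⟩ := ih
    exact ⟨cong_step h1, H.map (inc n), norm_step (⟨0, hS.pos⟩ : Fin n) h2, stab_step h3⟩
  | prod h1 h2 ih1 ih2 =>
    exact ⟨(hA _ _ h1.pos h2.pos _ _ ih1.1 ih2.1).1, ⊤, norm_top _ _, stab_prd _ _⟩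

/-- **all** -/
theorem all (hA : S_ASM) (hN : S_NF) (hO : S_ONE) :
    (∀ (n : ℕ) (S : Set (MulAut (F n))), Fam n S → Cong n S ∧ OutCong n S) ∧
    ∀ k l : ℕ, 1 ≤ k → 1 ≤ l → (2 ≤ k → OutCong k Set.univ) → (2 ≤ l → OutCong l Set.univ) →
      Cong (k + l) {φ | CjTo (iA k l).range φ ∧ CjTo (iB k l).range φ} ∧
      OutCong (k + l) {φ | CjTo (iA k l).range φ ∧ CjTo (iB k l).range φ} := by
  have h0 : ∀ (n : ℕ) (S : Set (MulAut (F n))), Fam n S → Cong n S ∧ OutCong n S := by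
    intro n S h
    obtain ⟨h1, H, h2, h3⟩ := fam hA hO h
    exact ⟨h1, out_of_norm h1 h2 h3⟩
  refine ⟨h0, fun k l hk hl h1 h2 => ?_⟩
  obtain ⟨h3, h4⟩ := h0 _ _ (Fam.prod (Fam.base k hk h1) (Fam.base l hl h2))
  have h5 : {φ : MulAut (F (k + l)) | CjTo (iA k l).range φ ∧ CjTo (iB k l).range φ} ⊆
      Prd Set.univ Set.univ := fun φ hφ => hN k l φ hφ.1 hφ.2
  exact ⟨cong_mono h5 h3, outCong_mono h5 h4⟩

end Pool.Agent.N77.CS
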