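import Pool.Agent.N77.CS.Stm
import Pool.Agent.N77.OF.EXA
import Pool.Agent.N77.OF.BASE
import Pool.Agent.N77.OF.MUL
import Pool.Agent.N77.OF.RGT

/-!
# Congruence subgroups on stabilizers of free splittings: the part NF (helper896)
-/

set_option autoImplicit false

namespace Pool.Agent.N77.CS.NF

open Monoid.CoprodI Pool.Agent.N77.OF Pool.Agent.R387.TC

/-- two factors: all the conjugating elements can be taken equal -/
theorem two {ι : Type} {M : ι → Type} [∀ i, Group (M i)] (o : ι → ι)
    (ho : ∀ i j, i ≠ j → j = o i) (i0 : ι) (φ : MulAut (Monoid.CoprodI M))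
    (u : ι → Monoid.CoprodI M) (ψ : ∀ i, MulAut (M i))
    (h : ∀ i (x : M i), φ (of x) = u i * of (ψ i x) * (u i)⁻¹) :
    ∃ (g : Monoid.CoprodI M) (χ : ∀ i, MulAut (M i)),
      ∀ i (x : M i), φ (of x) = g * of (χ i x) * g⁻¹ := by
  have hB := BASE.main
  have hM := MUL.main hB
  have hR := RGT.main hB
  have hE := EXA.main hB hM hR
  obtain ⟨c, hc⟩ : ∃ c : ∀ i, M i, ∀ i, c i = dir i ((u i)⁻¹ * u (o i)) := ⟨_, fun _ => rfl⟩
  have h1 : ∀ i (x : M i), φ (of x) =
      (u i * of (c i)) * of ((MulAut.conj (c i)⁻¹ * ψ i) x) * (u i * of (c i))⁻¹ := by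
    intro i x
    rw [h i x, MulAut.mul_apply, MulAut.conj_apply]
    simp only [map_mul, map_inv, mul_inv_rev, inv_inv, mul_assoc, mul_inv_cancel_left]
  have h2 : ∀ i j, i ≠ j → dir i ((u i * of (c i))⁻¹ * (u j * of (c j))) = 1 := by
    intro i j hij
    have e : (u i * of (c i))⁻¹ * (u j * of (c j)) =
        of (c i)⁻¹ * (((u i)⁻¹ * u j) * of (c j)) := by
      rw [map_inv]; group
    rw [e, (hB ι M).dir_of_mul, hR ι M i j _ _ (fun h => absurd h hij), ho i j hij, ← hc i,
      inv_mul_cancel]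
  have h3 := hE ι M φ (fun i => u i * of (c i)) (fun i => MulAut.conj (c i)⁻¹ * ψ i) h1 h2
  refine ⟨u i0 * of (c i0), fun i => MulAut.conj (c i)⁻¹ * ψ i, fun i x => ?_⟩
  have h4 : u i * of (c i) = u i0 * of (c i0) := h3 i i0
  rw [← h4]
  exact h1 i x

/-- an automorphism which maps the image of `i` onto a conjugate -/
theorem autOf {G H : Type} [Group G] [Group H] (i : H →* G) (hi : Function.Injective i)
    (φ : MulAut G) (g : G) (h : ∀ x, x ∈ i.range ↔ g⁻¹ * φ x * g ∈ i.range) :
    ∃ σ : MulAut H, ∀ x, φ (i x) = g * i (σ x) * g⁻¹ := by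
  have h1 : ∀ x : H, ∃ y : H, i y = g⁻¹ * φ (i x) * g := fun x => (h (i x)).1 ⟨x, rfl⟩
  choose p hp using h1
  have hmul : ∀ x y, p (x * y) = p x * p y := by
    intro x y
    apply hi
    rw [map_mul, hp, hp, hp, map_mul, map_mul]
    group
  have hinj : Function.Injective p := by
    intro x y hxy
    have h2 : g⁻¹ * φ (i x) * g = g⁻¹ * φ (i y) * g := by rw [← hp, ← hp, hxy]
    exact hi (φ.injective (mul_left_cancel (mul_right_cancel h2)))
  have hsurj : Function.Surjective p := by
    intro y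
    have h2 : g⁻¹ * φ (φ.symm (g * i y * g⁻¹)) * g = i y := by
      rw [MulEquiv.apply_symm_apply]
      group
    obtain ⟨x, hx⟩ := (h (φ.symm (g * i y * g⁻¹))).2 (by rw [h2]; exact ⟨y, rfl⟩)
    refine ⟨x, hi ?_⟩
    rw [hp, hx, h2]
  refine ⟨MulEquiv.ofBijective (MonoidHom.mk' p hmul) ⟨hinj, hsurj⟩, fun x => ?_⟩
  show φ (i x) = g * i (p x) * g⁻¹
  rw [hp]
  group

/-- the ranks -/
abbrev r (k l : ℕ) : Bool → ℕ := fun b => cond b l k

/-- the two factors -/
abbrev M (k l : ℕ) : Bool → Type := fun b => F (r k l b)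

/-- the two inclusions -/
def inj (k l : ℕ) : ∀ b : Bool, F (r k l b) →* F (k + l)
  | false => iA k l
  | true => iB k l

/-- the map from the free product -/
noncomputable def fwd (k l : ℕ) : Monoid.CoprodI (M k l) →* F (k + l) :=
  Monoid.CoprodI.lift fun b => inj k l b

/-- the images of the generators -/
noncomputable def bw (k l : ℕ) : Fin (k + l) → Monoid.CoprodI (M k l) :=
  fun i => Fin.addCases (motive := fun _ => Monoid.CoprodI (M k l))
    (fun i => of (M := M k l) (i := false) (FreeGroup.of i))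
    (fun j => of (M := M k l) (i := true) (FreeGroup.of j)) i

theorem bw_left (k l : ℕ) (i : Fin k) :
    bw k l (Fin.castAdd l i) = of (M := M k l) (i := false) (FreeGroup.of i) :=
  Fin.addCases_left (motive := fun _ => Monoid.CoprodI (M k l)) i

theorem bw_right (k l : ℕ) (i : Fin l) :
    bw k l (Fin.natAdd k i) = of (M := M k l) (i := true) (FreeGroup.of i) :=
  Fin.addCases_right (motive := fun _ => Monoid.CoprodI (M k l)) i

/-- the inverse map -/
noncomputable def bwd (k l : ℕ) : F (k + l) →* Monoid.CoprodI (M k l) :=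
  FreeGroup.lift (bw k l)

theorem bwd_fwd (k l : ℕ) : (bwd k l).comp (fwd k l) = MonoidHom.id _ := by
  apply Monoid.CoprodI.ext_hom
  intro b
  cases b
  · apply FreeGroup.ext_hom
    intro i
    show bwd k l (fwd k l (of (M := M k l) (i := false) (FreeGroup.of i))) =
      of (M := M k l) (i := false) (FreeGroup.of i)
    rw [fwd, Monoid.CoprodI.lift_of]
    show bwd k l (iA k l (FreeGroup.of i)) = _
    rw [iA, FreeGroup.map.of, bwd, FreeGroup.lift_apply_of]
    exact bw_left k l i
  · apply FreeGroup.ext_hom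
    intro i
    show bwd k l (fwd k l (of (M := M k l) (i := true) (FreeGroup.of i))) =
      of (M := M k l) (i := true) (FreeGroup.of i)
    rw [fwd, Monoid.CoprodI.lift_of]
    show bwd k l (iB k l (FreeGroup.of i)) = _
    rw [iB, FreeGroup.map.of, bwd, FreeGroup.lift_apply_of]
    exact bw_right k l i

theorem fwd_bwd (k l : ℕ) : (fwd k l).comp (bwd k l) = MonoidHom.id _ := by
  apply FreeGroup.ext_hom
  intro i
  show fwd k l (bwd k l (FreeGroup.of i)) = FreeGroup.of i
  rw [bwd, FreeGroup.lift_apply_of]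
  refine Fin.addCases (fun i => ?_) (fun j => ?_) i
  · rw [bw_left, fwd, Monoid.CoprodI.lift_of]
    show iA k l (FreeGroup.of i) = _
    rw [iA, FreeGroup.map.of]
  · rw [bw_right, fwd, Monoid.CoprodI.lift_of]
    show iB k l (FreeGroup.of j) = _
    rw [iB, FreeGroup.map.of]

/-- the free product of the two factors is the free group -/
noncomputable def e (k l : ℕ) : Monoid.CoprodI (M k l) ≃* F (k + l) :=
  MonoidHom.toMulEquiv (fwd k l) (bwd k l) (bwd_fwd k l) (fwd_bwd k l)

theorem e_of (k l : ℕ) (b : Bool) (x : M k l b) : e k l (of x) = inj k l b x :=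
  Monoid.CoprodI.lift_of _ _

theorem inj_inj (k l : ℕ) (b : Bool) : Function.Injective (inj k l b) := by
  intro x y hxy
  rw [← e_of, ← e_of] at hxy
  exact Monoid.CoprodI.of_injective b ((e k l).injective hxy)

theorem main : S_NF := by
  intro k l φ hA hB
  have h1 : ∀ b, ∃ g, ∀ x, x ∈ (inj k l b).range ↔ g⁻¹ * φ x * g ∈ (inj k l b).range := by
    intro b
    cases b
    · exact hA
    · exact hB
  choose g hg using h1
  have h2 : ∀ b, ∃ σ : MulAut (F (r k l b)), ∀ x, φ (inj k l b x) =
      g b * inj k l b (σ x) * (g b)⁻¹ := fun b =>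
    autOf (inj k l b) (inj_inj k l b) φ (g b) (hg b)
  choose σ hσ using h2
  have h3 : ∀ b (x : M k l b), (MulAut.congr (e k l).symm φ) (of x) =
      (e k l).symm (g b) * of (M := M k l) (σ b x) * ((e k l).symm (g b))⁻¹ := by
    intro b x
    show (e k l).symm (φ (e k l (of x))) = _
    rw [e_of, hσ b x, map_mul, map_mul, map_inv, ← e_of, MulEquiv.symm_apply_apply]
  obtain ⟨u, χ, hu⟩ := two (M := M k l) (fun b => !b) (by decide) false
    (MulAut.congr (e k l).symm φ) (fun b => (e k l).symm (g b)) σ h3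
  have h4 : ∀ b (x : M k l b), φ (inj k l b x) =
      e k l u * inj k l b (χ b x) * (e k l u)⁻¹ := by
    intro b x
    have h5 : (e k l).symm (φ (e k l (of x))) = u * of (χ b x) * u⁻¹ := hu b x
    rw [MulEquiv.symm_apply_eq, map_mul, map_mul, map_inv, e_of, e_of] at h5
    exact h5
  exact ⟨e k l u, χ false, trivial, χ true, trivial, fun x => h4 false x, fun y => h4 true y⟩

end Pool.Agent.N77.CS.NF
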