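import Pool.Agent.N77.CS.Stm

/-!
# Rank one
-/

set_option autoImplicit false

namespace Pool.Agent.N77.CS.ONE

open Pool.Agent.R387.TC

/-- the generator -/
def t : F 1 := FreeGroup.of 0

/-- the exponent -/
def ex : F 1 →* Multiplicative ℤ := FreeGroup.lift fun _ => Multiplicative.ofAdd 1

theorem ex_t : ex t = Multiplicative.ofAdd 1 := by simp [ex, t]

theorem eq_zpow (x : F 1) : x = t ^ (Multiplicative.toAdd (ex x)) := by
  have h : MonoidHom.id (F 1) = (zpowersHom (F 1) t).comp ex := by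
    apply FreeGroup.ext_hom
    intro i
    have hi : i = 0 := Subsingleton.elim _ _
    subst hi
    change t = zpowersHom (F 1) t (ex t)
    rw [ex_t, zpowersHom_apply, toAdd_ofAdd, zpow_one]
  have := DFunLike.congr_fun h x
  rw [MonoidHom.comp_apply, zpowersHom_apply] at this
  exact this

theorem ex_zpow (k : ℤ) : ex (t ^ k) = Multiplicative.ofAdd k := by
  rw [map_zpow, ex_t, ← ofAdd_zsmul, smul_eq_mul, mul_one]

theorem zpow_inj {k l : ℤ} (h : t ^ k = t ^ l) : k = l := by
  have := congrArg ex h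
  rw [ex_zpow, ex_zpow] at this
  exact Multiplicative.ofAdd.injective this

theorem main : S_ONE := by
  intro V _
  refine ⟨core 1 (Multiplicative (ZMod 3)), core_char _ _, core_fin _ _, ?_⟩
  intro ψ _ hψ
  obtain ⟨a, ha⟩ : ∃ a : ℤ, ψ t = t ^ a := ⟨_, eq_zpow _⟩
  obtain ⟨b, hb⟩ : ∃ b : ℤ, ψ⁻¹ t = t ^ b := ⟨_, eq_zpow _⟩
  have hab : a * b = 1 := by
    have h1 : ψ (ψ⁻¹ t) = t := MulAut.apply_inv_self _ _ _
    rw [hb, map_zpow, ha, ← zpow_mul] at h1
    apply zpow_inj
    rw [h1, zpow_one]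
  rcases Int.eq_one_or_neg_one_of_mul_eq_one hab with h1 | h1
  · have : ψ = 1 := by
      ext x
      rw [MulAut.one_apply, eq_zpow x, map_zpow, ha, h1, zpow_one]
    rw [this]
    exact V.one_mem
  · exfalso
    have h2 := mem_core.1 (hψ t) (FreeGroup.lift fun _ => Multiplicative.ofAdd 1)
    rw [ha, h1] at h2
    have h3 : (FreeGroup.lift fun _ : Fin 1 => Multiplicative.ofAdd (1 : ZMod 3)) t =
        Multiplicative.ofAdd 1 := by simp [t]
    rw [map_mul, map_zpow, map_inv, h3] at h2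
    revert h2
    decide

end Pool.Agent.N77.CS.ONE
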