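import Pool.Agent.N77.CS.Stm

/-!
# The wreath product argument

Project CS (helper77), part WR (helper545).
-/

set_option autoImplicit false
set_option linter.all false

namespace Pool.Agent.N77.CS.WR

open Pool.Agent.R387.TC Pool.Agent.N77.CS

section half

variable {X Y G P Q : Type} [Group X] [Group Y] [Group G] [Group P] [Group Q]

open scoped Classical in
/-- multiplication of the second coordinate over `1` -/
noncomputable def al (Q P : Type) [Group P] [Group Q] : P →* Equiv.Perm (Q × P) where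
  toFun b :=
    { toFun := fun w => if w.1 = 1 then (w.1, b * w.2) else w
      invFun := fun w => if w.1 = 1 then (w.1, b⁻¹ * w.2) else w
      left_inv := by
        rintro ⟨s, a⟩
        by_cases h : s = 1 <;> simp [h]
      right_inv := by
        rintro ⟨s, a⟩
        by_cases h : s = 1 <;> simp [h] }
  map_one' := by
    ext ⟨s, a⟩ <;> by_cases h : s = 1 <;> simp [h]
  map_mul' b c := by
    ext ⟨s, a⟩ <;> by_cases h : s = 1 <;> simp [h, mul_assoc]

/-- multiplication of the first coordinate -/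
def be (Q P : Type) [Group P] [Group Q] : Q →* Equiv.Perm (Q × P) where
  toFun b :=
    { toFun := fun w => (b * w.1, w.2)
      invFun := fun w => (b⁻¹ * w.1, w.2)
      left_inv := by
        rintro ⟨s, a⟩
        simp
      right_inv := by
        rintro ⟨s, a⟩
        simp }
  map_one' := by
    ext ⟨s, a⟩ <;> simp
  map_mul' b c := by
    ext ⟨s, a⟩ <;> simp [mul_assoc]

theorem al_one (b : P) (a : P) : al Q P b (1, a) = (1, b * a) := by
  simp [al]

theorem al_ne (b : P) {s : Q} (hs : s ≠ 1) (a : P) : al Q P b (s, a) = (s, a) := by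
  simp [al, hs]

theorem be_apply (b : Q) (s : Q) (a : P) : be Q P b (s, a) = (b * s, a) := rfl

theorem main_arg {i : X →* G} {j : Y →* G} {p : X →* P} {q : Y →* Q}
    {f : G →* Equiv.Perm (Q × P)} {r : G →* Q}
    (f1 : ∀ x, f (i x) = al Q P (p x)) (f3 : ∀ y, f (j y) = be Q P (q y))
    (fr : ∀ g s a, (f g (s, a)).1 = r g * s) {x0 : X} (hx0 : p x0 ≠ 1) (σ : X → X) (τ : Y → Y)
    (g : G) (hσ : f (i (σ x0)) = f (g * i x0 * g⁻¹))
    (hτ : ∀ y, f (j (τ y)) = f (g * j y * g⁻¹)) (y : Y) : q (τ y) = q y := by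
  have hr : r g = 1 := by
    by_contra hne
    have h1 : f (i (σ x0)) * f g = f g * f (i x0) := by
      rw [hσ, ← map_mul, ← map_mul]
      congr 1
      group
    have h2 := Equiv.congr_fun h1 (1, 1)
    rw [Equiv.Perm.mul_apply, Equiv.Perm.mul_apply, f1, f1, al_one] at h2
    have h3 : (f g (1, 1)).1 ≠ 1 := by
      rw [fr, mul_one]
      exact hne
    have h4 : al Q P (p (σ x0)) (f g (1, 1)) = f g (1, 1) := al_ne _ h3 _
    rw [h4] at h2
    have h5 := (f g).injective h2
    have h6 := congrArg Prod.snd h5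
    simp only [mul_one] at h6
    exact hx0 h6.symm
  have h1 : f (j (τ y)) * f g = f g * f (j y) := by
    rw [hτ, ← map_mul, ← map_mul]
    congr 1
    group
  have h2 := congrArg Prod.fst (Equiv.congr_fun h1 (1, 1))
  rw [Equiv.Perm.mul_apply, Equiv.Perm.mul_apply, f3, f3] at h2
  have h3 : (be Q P (q (τ y)) (f g (1, 1))).1 = q (τ y) * (f g (1, 1)).1 := rfl
  have h4 : (f g (be Q P (q y) (1, 1))).1 = r g * (q y * 1) := fr g _ _
  rw [h3, h4, fr, hr, one_mul, mul_one, one_mul, mul_one] at h2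
  exact h2

/-- the first coordinate -/
theorem first_coord {i : X →* G} {j : Y →* G} (hgen : i.range ⊔ j.range = ⊤) {p : X →* P}
    {q : Y →* Q} {f : G →* Equiv.Perm (Q × P)} {r : G →* Q}
    (f1 : ∀ x, f (i x) = al Q P (p x)) (f3 : ∀ y, f (j y) = be Q P (q y))
    (r1 : ∀ x, r (i x) = 1) (r2 : ∀ y, r (j y) = q y) (g : G) (s : Q) (a : P) :
    (f g (s, a)).1 = r g * s := by
  let T : Subgroup G :=
    { carrier := {g | ∀ s a, (f g (s, a)).1 = r g * s}
      mul_mem' := by
        intro g h hg hh s a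
        rw [map_mul, Equiv.Perm.mul_apply, map_mul, mul_assoc, ← hh s a]
        exact hg _ _
      one_mem' := by
        intro s a
        rw [map_one, map_one, one_mul]
        rfl
      inv_mem' := by
        intro g hg s a
        have h1 := hg ((f g⁻¹ (s, a)).1) ((f g⁻¹ (s, a)).2)
        have h2 : f g ((f g⁻¹ (s, a)).1, (f g⁻¹ (s, a)).2) = (s, a) := by
          show f g (f g⁻¹ (s, a)) = (s, a)
          rw [← Equiv.Perm.mul_apply, ← map_mul, mul_inv_cancel, map_one]
          rfl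
        rw [h2] at h1
        have h3 : s = r g * (f g⁻¹ (s, a)).1 := h1
        rw [map_inv r, eq_inv_mul_iff_mul_eq]
        exact h3.symm }
  have hT : i.range ⊔ j.range ≤ T := by
    rw [sup_le_iff]
    constructor
    · rintro _ ⟨x, rfl⟩ s a
      rw [f1, r1, one_mul]
      by_cases hs : s = 1
      · rw [hs, al_one]
      · rw [al_ne _ hs]
    · rintro _ ⟨y, rfl⟩ s a
      rw [f3, r2, be_apply]
  rw [hgen] at hT
  exact hT (Subgroup.mem_top g) s a

theorem half (i : X →* G) (j : Y →* G)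
    (hU : ∀ (S : Type) [Group S] (a : X →* S) (b : Y →* S),
      ∃ h : G →* S, (∀ x, h (i x) = a x) ∧ ∀ y, h (j y) = b y)
    (hgen : i.range ⊔ j.range = ⊤) (p : X →* P) (q : Y →* Q) (x0 : X) (hx0 : p x0 ≠ 1) :
    ∃ f : G →* Equiv.Perm (Q × P), ∀ (σ : X → X) (τ : Y → Y) (g : G),
      (∀ x, f (i (σ x)) = f (g * i x * g⁻¹)) → (∀ y, f (j (τ y)) = f (g * j y * g⁻¹)) →
      ∀ y, q (τ y) = q y := by
  obtain ⟨f, hf1, hf2⟩ := hU _ ((al Q P).comp p) ((be Q P).comp q)
  obtain ⟨r, hr1, hr2⟩ := hU _ (1 : X →* Q) q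
  refine ⟨f, fun σ τ g h1 h2 => ?_⟩
  exact main_arg hf1 hf2 (first_coord hgen hf1 hf2 hr1 hr2) hx0 σ τ g (h1 x0) h2

end half

theorem univ_AB (k l : ℕ) (S : Type) [Group S] (a : F k →* S) (b : F l →* S) :
    ∃ h : F (k + l) →* S, (∀ x, h (iA k l x) = a x) ∧ ∀ y, h (iB k l y) = b y := by
  let h : F (k + l) →* S := FreeGroup.lift
    (fun c => Fin.addCases (motive := fun _ => S) (fun i => a (FreeGroup.of i))
      (fun i => b (FreeGroup.of i)) c)
  refine ⟨h, fun x => ?_, fun y => ?_⟩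
  · have e : h.comp (iA k l) = a := by
      apply FreeGroup.ext_hom
      intro i
      simp [h, iA]
    exact DFunLike.congr_fun e x
  · have e : h.comp (iB k l) = b := by
      apply FreeGroup.ext_hom
      intro i
      simp [h, iB]
    exact DFunLike.congr_fun e y

theorem gen_AB (k l : ℕ) : (iA k l).range ⊔ (iB k l).range = ⊤ := by
  rw [eq_top_iff, ← FreeGroup.closure_range_of, Subgroup.closure_le]
  rintro _ ⟨c, rfl⟩
  refine Fin.addCases (fun i => ?_) (fun i => ?_) c
  · exact Subgroup.mem_sup_left ⟨FreeGroup.of i, by simp [iA]⟩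
  · exact Subgroup.mem_sup_right ⟨FreeGroup.of i, by simp [iB]⟩

/-- a nontrivial homomorphism -/
theorem exists_hom {k : ℕ} (hk : 1 ≤ k) :
    ∃ (p : F k →* Multiplicative (ZMod 2)) (x : F k), p x ≠ 1 := by
  refine ⟨FreeGroup.lift fun _ => Multiplicative.ofAdd 1, FreeGroup.of ⟨0, hk⟩, ?_⟩
  rw [FreeGroup.lift_apply_of]
  decide

theorem main : S_WR := by
  intro k l hk hl KA hA hA' KB hB hB'
  obtain ⟨p, x0, hx0⟩ := exists_hom hk
  obtain ⟨p', y0, hy0⟩ := exists_hom hl
  obtain ⟨f, hf⟩ := half (iA k l) (iB k l) (fun S _ a b => univ_AB k l S a b) (gen_AB k l) p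
    (QuotientGroup.mk' KB) x0 hx0
  obtain ⟨f', hf'⟩ := half (iB k l) (iA k l)
    (fun S _ a b => by
      obtain ⟨h, h1, h2⟩ := univ_AB k l S b a
      exact ⟨h, h2, h1⟩) (by rw [sup_comm]; exact gen_AB k l) p'
    (QuotientGroup.mk' KA) y0 hy0
  have hc1 := core_char (k + l) (Equiv.Perm ((F l ⧸ KB) × Multiplicative (ZMod 2)))
  have hc2 := core_char (k + l) (Equiv.Perm ((F k ⧸ KA) × Multiplicative (ZMod 2)))
  have hfin1 := core_fin (k + l) (Equiv.Perm ((F l ⧸ KB) × Multiplicative (ZMod 2)))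
  have hfin2 := core_fin (k + l) (Equiv.Perm ((F k ⧸ KA) × Multiplicative (ZMod 2)))
  refine ⟨core (k + l) (Equiv.Perm ((F l ⧸ KB) × Multiplicative (ZMod 2))) ⊓
    core (k + l) (Equiv.Perm ((F k ⧸ KA) × Multiplicative (ZMod 2))), ?_, inferInstance, ?_⟩
  · rw [Subgroup.characteristic_iff_le_comap] at hc1 hc2 ⊢
    intro φ x hx
    exact ⟨hc1 φ hx.1, hc2 φ hx.2⟩
  · intro σ τ g h1 h2
    have key : ∀ {S : Type} [Group S] (f : F (k + l) →* S) (u v : F (k + l)),
        f (u * v⁻¹) = 1 → f u = f v := by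
      intro S _ f u v h
      rwa [map_mul, map_inv, mul_inv_eq_one] at h
    constructor
    · intro x
      have h3 := hf' (fun y => τ y) (fun x => σ x) g
        (fun y => key f' _ _ (mem_core.1 (h2 y).2 f')) (fun x => key f' _ _ (mem_core.1 (h1 x).2 f')) x
      apply (QuotientGroup.eq_one_iff _).1
      change QuotientGroup.mk' KA (σ x * x⁻¹) = 1
      rw [map_mul, map_inv, mul_inv_eq_one]
      exact h3
    · intro y
      have h3 := hf (fun x => σ x) (fun y => τ y) g
        (fun x => key f _ _ (mem_core.1 (h1 x).1 f)) (fun y => key f _ _ (mem_core.1 (h2 y).1 f)) y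
      apply (QuotientGroup.eq_one_iff _).1
      change QuotientGroup.mk' KB (τ y * y⁻¹) = 1
      rw [map_mul, map_inv, mul_inv_eq_one]
      exact h3

end Pool.Agent.N77.CS.WR
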