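import Pool.Agent.N77.CS.Asm2
import Pool.Agent.N77.CS.WR
import Pool.Agent.N77.CS.ASM
import Pool.Agent.N77.CS.NF
import Pool.Agent.N77.CS.ONE

/-!
# Congruence subgroups on stabilizers of free splittings: final theorem
-/

set_option autoImplicit false

namespace Pool.Agent.N77.CS

open Pool.Agent.R387.TC

theorem fin :
    (∀ (n : ℕ) (S : Set (MulAut (F n))), Fam n S → Cong n S ∧ OutCong n S) ∧
    ∀ k l : ℕ, 1 ≤ k → 1 ≤ l → (2 ≤ k → OutCong k Set.univ) → (2 ≤ l → OutCong l Set.univ) →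
      Cong (k + l) {φ | CjTo (iA k l).range φ ∧ CjTo (iB k l).range φ} ∧
      OutCong (k + l) {φ | CjTo (iA k l).range φ ∧ CjTo (iB k l).range φ} :=
  all (ASM.main WR.main) NF.main ONE.main

end Pool.Agent.N77.CS
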