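import Pool.Agent.R387.TC.Step

/-!
# Congruence subgroups on stabilizers of free splittings: definitions and statements of the parts
-/

set_option autoImplicit false

namespace Pool.Agent.N77.CS

open Pool.Agent.R387.TC

/-- the inclusion of the free group on the first `k` generators -/
def iA (k l : ℕ) : F k →* F (k + l) := FreeGroup.map (Fin.castAdd l)

/-- the inclusion of the free group on the last `l` generators -/
def iB (k l : ℕ) : F l →* F (k + l) := FreeGroup.map (Fin.natAdd k)

/-- the automorphisms which are, up to an inner automorphism, the free product of an automorphism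
in `S` and an automorphism in `T` -/
def Prd {k l : ℕ} (S : Set (MulAut (F k))) (T : Set (MulAut (F l))) : Set (MulAut (F (k + l))) :=
  {φ | ∃ g, ∃ σ ∈ S, ∃ τ ∈ T, (∀ x, φ (iA k l x) = g * iA k l (σ x) * g⁻¹) ∧
    ∀ y, φ (iB k l y) = g * iB k l (τ y) * g⁻¹}

/-- `φ` maps the subgroup `A` onto a conjugate of `A` -/
def CjTo {n : ℕ} (A : Subgroup (F n)) (φ : MulAut (F n)) : Prop :=
  ∃ g : F n, ∀ x, x ∈ A ↔ g⁻¹ * φ x * g ∈ A

/-- WR. the wreath product argument -/
def S_WR : Prop := ∀ k l : ℕ, 1 ≤ k → 1 ≤ l →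
  ∀ KA : Subgroup (F k), KA.Characteristic → KA.FiniteIndex →
  ∀ KB : Subgroup (F l), KB.Characteristic → KB.FiniteIndex →
    ∃ K : Subgroup (F (k + l)), K.Characteristic ∧ K.FiniteIndex ∧
      ∀ (σ : MulAut (F k)) (τ : MulAut (F l)) (g : F (k + l)),
        (∀ x, iA k l (σ x) * (g * iA k l x * g⁻¹)⁻¹ ∈ K) →
        (∀ y, iB k l (τ y) * (g * iB k l y * g⁻¹)⁻¹ ∈ K) → Triv KA σ ∧ Triv KB τ

/-- ASM. the congruence property for products -/
def S_ASM : Prop := ∀ k l : ℕ, 1 ≤ k → 1 ≤ l → ∀ (S : Set (MulAut (F k))) (T : Set (MulAut (F l))),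
  Cong k S → Cong l T → Cong (k + l) (Prd S T) ∧ OutCong (k + l) (Prd S T)

/-- NF. the automorphisms which preserve a free splitting -/
def S_NF : Prop := ∀ (k l : ℕ) (φ : MulAut (F (k + l))),
  CjTo (iA k l).range φ → CjTo (iB k l).range φ →
    φ ∈ Prd (k := k) (l := l) Set.univ Set.univ

/-- ONE. rank one -/
def S_ONE : Prop := Cong 1 Set.univ

end Pool.Agent.N77.CS
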